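import Pool.Agent.Helper77.HY.St

set_option autoImplicit false

namespace Pool.Agent.Helper62.HY.MIN

open Pool.Agent.Helper35.PM Pool.Agent.Helper77.HY

theorem main (hMin : Pool.Agent.Helper35.PM.StMin) : StMinor := by
  intro V W _ G H B hG hconn hdisj hadj
  classical
  have := Fintype.ofFinite V
  obtain ⟨R⟩ := hG
  refine hMin (Fintype.card G.Dart) V W G.Dart R.map H B le_rfl ?_ hdisj ?_ ?_
  · intro w
    obtain ⟨x⟩ := (hconn w).nonempty
    exact ⟨x.1, x.2⟩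
  · intro w a ha b hb
    have h1 := (hconn w).preconnected ⟨a, ha⟩ ⟨b, hb⟩
    rw [SimpleGraph.reachable_iff_reflTransGen] at h1
    refine Relation.ReflTransGen.lift (Subtype.val : ↥(B w) → V) ?_ _ _ h1
    intro p q hpq
    have hpq' : G.Adj p.1 q.1 := hpq
    exact ⟨p.2, q.2, ⟨(p.1, q.1), hpq'⟩, rfl, rfl⟩
  · intro w w' hww
    obtain ⟨a, ha, b, hb, hab⟩ := hadj w w' hww
    exact ⟨⟨(a, b), hab⟩, ha, hb⟩

end Pool.Agent.Helper62.HY.MIN
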